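import Mathlib

/-!
# Theorem R (rooted graph lemma for the strong 5-CDC theorem, MP_7cf8d2_co)

Fixed types `V`, `E`; a multigraph is two end maps, a set `A` of active vertices, a set `F` of
active edges.  Every operation (contraction, suppression) is `Gph.push ρ` (compose the end maps
with `ρ`, forget the edges that become loops), possibly after deleting an edge.
Everything is expressed with cuts.
-/

namespace GLR

variable {V E : Type*} [Fintype V] [DecidableEq V] [DecidableEq E]

/-- A finite multigraph with fixed vertex and edge types. -/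
structure Gph (V E : Type*) where
  s : E → V
  t : E → V
  A : Finset V
  F : Finset E

namespace Gph

/-- edges of `X` with exactly one end in `U` -/
def cut (G : Gph V E) (X : Finset E) (U : Finset V) : Finset E :=
  X.filter fun e => ¬ (G.s e ∈ U ↔ G.t e ∈ U)

/-- edges of `X` with both ends in `U` -/
def ins (G : Gph V E) (X : Finset E) (U : Finset V) : Finset E :=
  X.filter fun e => G.s e ∈ U ∧ G.t e ∈ U

/-- edges of `X` with at least one end in `U` -/
def meet (G : Gph V E) (X : Finset E) (U : Finset V) : Finset E :=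
  X.filter fun e => G.s e ∈ U ∨ G.t e ∈ U

/-- `X` is even: every cut is crossed an even number of times
(`Ev_of_singleton`: it is enough to look at the stars) -/
def Ev (G : Gph V E) (X : Finset E) : Prop := ∀ v : V, Even (G.cut X {v}).card

/-- `X` is a circuit of `G`: a minimal nonempty even set of active edges -/
structure Circ (G : Gph V E) (X : Finset E) : Prop where
  sub : X ⊆ G.F
  ne : X.Nonempty
  ev : G.Ev X
  min : ∀ Y ⊆ X, G.Ev Y → Y.Nonempty → Y = X

/-- loopless cubic graph on the active vertices -/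
structure Cubic (G : Gph V E) : Prop where
  sA : ∀ e ∈ G.F, G.s e ∈ G.A
  tA : ∀ e ∈ G.F, G.t e ∈ G.A
  ne : ∀ e ∈ G.F, G.s e ≠ G.t e
  deg : ∀ v ∈ G.A, (G.cut G.F {v}).card = 3

/-- `B` is connected through edges of `X` -/
def Conn (G : Gph V E) (X : Finset E) (B : Finset V) : Prop :=
  ∀ Y ⊆ B, Y.Nonempty → Y ≠ B → (G.cut (G.ins X B) Y).Nonempty

/-- compose the end maps with `ρ` and forget the loops created -/
def push (G : Gph V E) (ρ : V → V) : Gph V E where
  s := fun e => ρ (G.s e)
  t := fun e => ρ (G.t e)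
  A := G.A.image ρ
  F := G.F.filter fun e => ρ (G.s e) ≠ ρ (G.t e)

/-- delete the edge `g` -/
def del (G : Gph V E) (g : E) : Gph V E where
  s := G.s
  t := G.t
  A := G.A
  F := G.F.erase g

end Gph

/-- The class of Theorem R: 3-edge-connected cubic, root `r`, `M` a matching off `r` with at least
two edges, no lonely 3-cut (a 3-cut side off the root, with at least two vertices, that is met by
exactly one edge of `M`, which lies inside). -/
structure InR (G : Gph V E) (r : V) (M : Finset E) : Prop where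
  cub : G.Cubic
  big : 4 ≤ G.A.card
  con : ∀ U ⊆ G.A, U.Nonempty → U ≠ G.A → 3 ≤ (G.cut G.F U).card
  rA : r ∈ G.A
  MF : M ⊆ G.F
  mat : ∀ v ∈ G.A, v ≠ r → (G.cut M {v}).card ≤ 1
  two : 2 ≤ M.card
  lon : ∀ U ⊆ G.A, r ∉ U → 2 ≤ U.card → (G.cut G.F U).card = 3 →
    (G.meet M U).card = 1 → G.ins M U = ∅

/-- the conclusion of Theorem R -/
structure Good (G : Gph V E) (r : V) (M X : Finset E) (B : Finset V) : Prop where
  circ : G.Circ X
  BA : B ⊆ G.A
  rB : r ∈ B
  con : G.Conn G.F B
  dis : G.meet X B = ∅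
  one : (X ∩ M).card ≤ 1
  two : 2 ≤ (M.filter fun e => (G.cut X {G.s e}).Nonempty ∨ (G.cut X {G.t e}).Nonempty).card
  all : ∀ e ∈ M, e ∉ X → G.s e ∈ B ∨ G.t e ∈ B

/-- no nontrivial 3-cut -/
def NoCut3 (G : Gph V E) : Prop :=
  ∀ U ⊆ G.A, 2 ≤ U.card → 2 ≤ (G.A \ U).card → 4 ≤ (G.cut G.F U).card

/-- a free edge: both ends off the root and off `M` -/
def Free (G : Gph V E) (r : V) (M : Finset E) (g : E) : Prop :=
  g ∈ G.F ∧ G.s g ≠ r ∧ G.t g ≠ r ∧ G.cut M {G.s g} = ∅ ∧ G.cut M {G.t g} = ∅

/-- a thin set -/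
structure Thin (G : Gph V E) (r : V) (M : Finset E) (U : Finset V) : Prop where
  sub : U ⊆ G.A
  r_not : r ∉ U
  big : 4 ≤ U.card
  cut : (G.cut G.F U).card = 4
  meet : (G.meet M U).card = 1
  ins : (G.ins M U).card = 1

end GLR
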