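import Pool.Agent.Helper18.GLR.Base

/-! Tools for Theorem R. -/

namespace GLR

open Finset

set_option linter.unusedSectionVars false

variable {V E : Type*} [Fintype V] [DecidableEq V] [DecidableEq E]

namespace Gph

variable (G : Gph V E)

theorem mem_cut {X : Finset E} {U : Finset V} {e : E} :
    e ∈ G.cut X U ↔ e ∈ X ∧ ¬ (G.s e ∈ U ↔ G.t e ∈ U) := by
  simp [cut]

theorem mem_ins {X : Finset E} {U : Finset V} {e : E} :
    e ∈ G.ins X U ↔ e ∈ X ∧ G.s e ∈ U ∧ G.t e ∈ U := by
  simp [ins]

theorem mem_meet {X : Finset E} {U : Finset V} {e : E} :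
    e ∈ G.meet X U ↔ e ∈ X ∧ (G.s e ∈ U ∨ G.t e ∈ U) := by
  simp [meet]

theorem mem_cut_singleton {X : Finset E} {v : V} {e : E} :
    e ∈ G.cut X {v} ↔ e ∈ X ∧ ((G.s e = v ∧ G.t e ≠ v) ∨ (G.s e ≠ v ∧ G.t e = v)) := by
  rw [mem_cut, mem_singleton, mem_singleton]
  tauto

/-- cuts after a push -/
theorem cut_push (ρ : V → V) (X : Finset E) (U : Finset V) :
    (G.push ρ).cut X U = G.cut X (univ.filter fun v => ρ v ∈ U) := by
  ext e
  simp [cut, push]

theorem ins_push (ρ : V → V) (X : Finset E) (U : Finset V) :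
    (G.push ρ).ins X U = G.ins X (univ.filter fun v => ρ v ∈ U) := by
  ext e
  simp [ins, push]

theorem meet_push (ρ : V → V) (X : Finset E) (U : Finset V) :
    (G.push ρ).meet X U = G.meet X (univ.filter fun v => ρ v ∈ U) := by
  ext e
  simp [meet, push]

theorem cut_del (g : E) (X : Finset E) (U : Finset V) : (G.del g).cut X U = G.cut X U := rfl
theorem ins_del (g : E) (X : Finset E) (U : Finset V) : (G.del g).ins X U = G.ins X U := rfl
theorem meet_del (g : E) (X : Finset E) (U : Finset V) : (G.del g).meet X U = G.meet X U := rfl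

theorem cut_mono {X Y : Finset E} (h : X ⊆ Y) (U : Finset V) : G.cut X U ⊆ G.cut Y U :=
  filter_subset_filter _ h

theorem ins_mono {X Y : Finset E} (h : X ⊆ Y) (U : Finset V) : G.ins X U ⊆ G.ins Y U :=
  filter_subset_filter _ h

theorem meet_mono {X Y : Finset E} (h : X ⊆ Y) (U : Finset V) : G.meet X U ⊆ G.meet Y U :=
  filter_subset_filter _ h

theorem cut_subset (X : Finset E) (U : Finset V) : G.cut X U ⊆ X := filter_subset _ _
theorem ins_subset (X : Finset E) (U : Finset V) : G.ins X U ⊆ X := filter_subset _ _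
theorem meet_subset (X : Finset E) (U : Finset V) : G.meet X U ⊆ X := filter_subset _ _

/-- erasing an edge in a cut -/
theorem cut_erase (X : Finset E) (U : Finset V) (g : E) :
    G.cut (X.erase g) U = (G.cut X U).erase g := by
  ext e
  simp only [cut, mem_filter, mem_erase]
  tauto

/-- disjoint unions -/
theorem card_cut_union {X Y : Finset E} (h : Disjoint X Y) (U : Finset V) :
    (G.cut (X ∪ Y) U).card = (G.cut X U).card + (G.cut Y U).card := by
  rw [cut, filter_union, card_union_of_disjoint (disjoint_filter_filter h)]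
  rfl

theorem card_cut_sdiff {X Y : Finset E} (h : Y ⊆ X) (U : Finset V) :
    (G.cut (X \ Y) U).card + (G.cut Y U).card = (G.cut X U).card := by
  rw [← card_cut_union G (sdiff_disjoint), sdiff_union_of_subset h]

theorem card_cut_eq_sum (X : Finset E) (U : Finset V) :
    (G.cut X U).card = ∑ e ∈ X, (if (G.s e ∈ U ↔ G.t e ∈ U) then 0 else 1) := by
  rw [cut, card_filter]
  refine sum_congr rfl fun e _ => ?_
  by_cases h : (G.s e ∈ U ↔ G.t e ∈ U) <;> simp [h]

theorem card_ins_eq_sum (X : Finset E) (U : Finset V) :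
    (G.ins X U).card = ∑ e ∈ X, (if (G.s e ∈ U ∧ G.t e ∈ U) then 1 else 0) := by
  rw [ins, card_filter]

/-- handshake -/
theorem handshake {X : Finset E} (hne : ∀ e ∈ X, G.s e ≠ G.t e) (U : Finset V) :
    ∑ v ∈ U, (G.cut X {v}).card = 2 * (G.ins X U).card + (G.cut X U).card := by
  simp_rw [card_cut_eq_sum, card_ins_eq_sum]
  rw [sum_comm, mul_sum, ← sum_add_distrib]
  refine sum_congr rfl fun e he => ?_
  have hst := hne e he
  have h1 : ∀ v : V, (if (G.s e ∈ ({v} : Finset V) ↔ G.t e ∈ ({v} : Finset V)) then 0 else 1)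
      = (if G.s e = v then 1 else 0) + (if G.t e = v then 1 else 0) := by
    intro v
    by_cases h1 : G.s e = v <;> by_cases h2 : G.t e = v <;> simp [h1, h2]
    exact absurd (h1.trans h2.symm) hst
  rw [sum_congr rfl (fun v _ => h1 v), sum_add_distrib, sum_ite_eq, sum_ite_eq]
  by_cases h1 : G.s e ∈ U <;> by_cases h2 : G.t e ∈ U <;> simp [h1, h2]

/-- parity of a cut from the parities of the stars -/
theorem even_cut_of {X : Finset E} {U : Finset V} (h : ∀ v ∈ U, Even (G.cut X {v}).card) :
    Even (G.cut X U).card := by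
  set X' := X.filter fun e => G.s e ≠ G.t e with hX'
  have hc : ∀ W : Finset V, G.cut X' W = G.cut X W := by
    intro W
    ext e
    simp only [Gph.cut, hX', mem_filter]
    constructor
    · rintro ⟨⟨h1, h2⟩, h3⟩
      exact ⟨h1, h3⟩
    · rintro ⟨h1, h3⟩
      refine ⟨⟨h1, ?_⟩, h3⟩
      intro h4
      rw [h4] at h3
      exact h3 Iff.rfl
  have := handshake G (X := X') (fun e he => (mem_filter.mp he).2) U
  rw [← hc U]
  have h2 : Even (∑ v ∈ U, (G.cut X' {v}).card) := by
    refine Finset.even_sum _ fun v hv => ?_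
    rw [hc]
    exact h v hv
  rw [this] at h2
  rcases h2 with ⟨k, hk⟩
  exact ⟨k - (G.ins X' U).card, by omega⟩

/-- an even set crosses every cut an even number of times -/
theorem Ev.cut {G : Gph V E} {X : Finset E} (h : G.Ev X) (U : Finset V) :
    Even (G.cut X U).card := G.even_cut_of fun v _ => h v

theorem card_cut_symmDiff (X Y : Finset E) (U : Finset V) :
    (G.cut (symmDiff X Y) U).card + 2 * (G.cut (X ∩ Y) U).card
      = (G.cut X U).card + (G.cut Y U).card := by
  have h1 : G.cut (symmDiff X Y) U = symmDiff (G.cut X U) (G.cut Y U) := by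
    ext e
    simp only [Gph.cut, mem_filter, mem_symmDiff]
    tauto
  have h2 : G.cut (X ∩ Y) U = G.cut X U ∩ G.cut Y U := by
    ext e
    simp only [Gph.cut, mem_filter, mem_inter]
    tauto
  rw [h1, h2]
  set A := G.cut X U
  set B := G.cut Y U
  have h3 : symmDiff A B = (A \ B) ∪ (B \ A) := rfl
  rw [h3, card_union_of_disjoint (disjoint_sdiff_sdiff)]
  have := card_sdiff_add_card_inter A B
  have h4 := card_sdiff_add_card_inter B A
  rw [inter_comm] at h4
  omega

theorem Ev.symmDiff {G : Gph V E} {X Y : Finset E} (hX : G.Ev X) (hY : G.Ev Y) :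
    G.Ev (symmDiff X Y) := by
  intro v
  have := G.card_cut_symmDiff X Y {v}
  rcases hX v with ⟨a, ha⟩
  rcases hY v with ⟨b, hb⟩
  exact ⟨a + b - (G.cut (X ∩ Y) {v}).card, by omega⟩

/-- T1: at least as many edges as vertices gives a nonempty even set -/
theorem exists_even {S : Finset V} {Y : Finset E} (hY : ∀ e ∈ Y, G.s e ∈ S ∧ G.t e ∈ S)
    (hS : S.Nonempty) (hc : S.card ≤ Y.card) : ∃ Z ⊆ Y, Z.Nonempty ∧ G.Ev Z := by
  obtain ⟨v0, hv0⟩ := hS
  have hlt : ((S.erase v0).powerset).card < (Y.powerset).card := by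
    rw [card_powerset, card_powerset, card_erase_of_mem hv0]
    apply Nat.pow_lt_pow_right (by norm_num)
    have : 0 < S.card := card_pos.mpr ⟨v0, hv0⟩
    omega
  obtain ⟨Z1, h1, Z2, h2, hne, heq⟩ := exists_ne_map_eq_of_card_lt_of_maps_to hlt
    (f := fun Z => (S.erase v0).filter fun v => Odd (G.cut Z {v}).card)
    (fun Z _ => by
      rw [mem_coe, mem_powerset]
      exact filter_subset _ _)
  simp only [mem_powerset] at h1 h2
  refine ⟨symmDiff Z1 Z2, ?_, ?_, ?_⟩
  · intro e he
    rw [mem_symmDiff] at he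
    rcases he with he | he
    · exact h1 he.1
    · exact h2 he.1
  · rw [nonempty_iff_ne_empty]
    intro h
    exact hne (symmDiff_eq_bot.mp h)
  · have hin : ∀ e ∈ symmDiff Z1 Z2, G.s e ∈ S ∧ G.t e ∈ S := by
      intro e he
      rw [mem_symmDiff] at he
      rcases he with he | he
      · exact hY e (h1 he.1)
      · exact hY e (h2 he.1)
    have hev : ∀ v ∈ S.erase v0, Even (G.cut (symmDiff Z1 Z2) {v}).card := by
      intro v hv
      have hp : Odd (G.cut Z1 {v}).card ↔ Odd (G.cut Z2 {v}).card := by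
        have : v ∈ ((S.erase v0).filter fun v => Odd (G.cut Z1 {v}).card)
            ↔ v ∈ ((S.erase v0).filter fun v => Odd (G.cut Z2 {v}).card) := by
          rw [heq]
        simpa [mem_filter, hv] using this
      have h3 := G.card_cut_symmDiff Z1 Z2 {v}
      by_cases hodd : Odd (G.cut Z1 {v}).card
      · have hodd2 := hp.mp hodd
        rcases hodd with ⟨a, ha⟩
        rcases hodd2 with ⟨b, hb⟩
        exact ⟨a + b + 1 - (G.cut (Z1 ∩ Z2) {v}).card, by omega⟩
      · have hodd2 : ¬ Odd (G.cut Z2 {v}).card := fun h => hodd (hp.mpr h)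
        rw [Nat.not_odd_iff_even] at hodd hodd2
        rcases hodd with ⟨a, ha⟩
        rcases hodd2 with ⟨b, hb⟩
        exact ⟨a + b - (G.cut (Z1 ∩ Z2) {v}).card, by omega⟩
    intro v
    by_cases hv : v ∈ S
    · by_cases hv' : v = v0
      · subst hv'
        have h4 := G.even_cut_of hev
        have h5 : G.cut (symmDiff Z1 Z2) {v} = G.cut (symmDiff Z1 Z2) (S.erase v) := by
          ext e
          simp only [Gph.cut, mem_filter, mem_singleton, mem_erase]
          constructor
          · rintro ⟨h6, h7⟩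
            have := hin e h6
            refine ⟨h6, ?_⟩
            tauto
          · rintro ⟨h6, h7⟩
            have := hin e h6
            refine ⟨h6, ?_⟩
            tauto
        rw [h5]
        exact h4
      · exact hev v (mem_erase.mpr ⟨hv', hv⟩)
    · have : G.cut (symmDiff Z1 Z2) {v} = ∅ := by
        rw [eq_empty_iff_forall_notMem]
        intro e he
        simp only [Gph.cut, mem_filter, mem_singleton] at he
        have h6 := hin e he.1
        apply he.2
        constructor
        · intro h; exact absurd (h ▸ h6.1) hv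
        · intro h; exact absurd (h ▸ h6.2) hv
      rw [this]
      simp

/-- T2: a connected set has at least `#S - 1` edges -/
theorem card_le_of_conn {S : Finset V} {Y : Finset E} (hc : G.Conn Y S) :
    S.card ≤ (G.ins Y S).card + 1 := by
  rcases S.eq_empty_or_nonempty with hS | hS
  · subst hS; simp
  have key : ∀ k, k < S.card → ∃ T ⊆ S, T.card = k + 1 ∧ k ≤ (G.ins Y T).card := by
    intro k
    induction k with
    | zero =>
      intro _
      obtain ⟨v, hv⟩ := hS
      exact ⟨{v}, by simpa using hv, by simp, by simp⟩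
    | succ k ih =>
      intro hk
      obtain ⟨T, hT, hTc, hTi⟩ := ih (by omega)
      have hTn : T.Nonempty := card_pos.mp (by omega)
      have hTS : T ≠ S := by
        rintro rfl; omega
      obtain ⟨e, he⟩ := hc T hT hTn hTS
      simp only [Gph.cut, Gph.ins, mem_filter] at he
      obtain ⟨⟨heY, hs, ht⟩, hx⟩ := he
      by_cases h1 : G.s e ∈ T
      · have h2 : G.t e ∉ T := fun h => hx ⟨fun _ => h, fun _ => h1⟩
        refine ⟨insert (G.t e) T, insert_subset ht hT, by rw [card_insert_of_notMem h2]; omega, ?_⟩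
        have hsub : insert e (G.ins Y T) ⊆ G.ins Y (insert (G.t e) T) := by
          intro f hf
          rw [mem_insert] at hf
          simp only [Gph.ins, mem_filter, mem_insert] at hf ⊢
          rcases hf with rfl | hf
          · exact ⟨heY, Or.inr h1, Or.inl rfl⟩
          · exact ⟨hf.1, Or.inr hf.2.1, Or.inr hf.2.2⟩
        have hne : e ∉ G.ins Y T := by
          simp only [Gph.ins, mem_filter]
          tauto
        have := card_le_card hsub
        rw [card_insert_of_notMem hne] at this
        omega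
      · have h2 : G.t e ∈ T := by
          by_contra h
          exact hx ⟨fun h' => absurd h' h1, fun h' => absurd h' h⟩
        refine ⟨insert (G.s e) T, insert_subset hs hT, by rw [card_insert_of_notMem h1]; omega, ?_⟩
        have hsub : insert e (G.ins Y T) ⊆ G.ins Y (insert (G.s e) T) := by
          intro f hf
          rw [mem_insert] at hf
          simp only [Gph.ins, mem_filter, mem_insert] at hf ⊢
          rcases hf with rfl | hf
          · exact ⟨heY, Or.inl rfl, Or.inr h2⟩
          · exact ⟨hf.1, Or.inr hf.2.1, Or.inr hf.2.2⟩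
        have hne : e ∉ G.ins Y T := by
          simp only [Gph.ins, mem_filter]
          tauto
        have := card_le_card hsub
        rw [card_insert_of_notMem hne] at this
        omega
  have hpos : 0 < S.card := card_pos.mpr hS
  obtain ⟨T, hT, hTc, hTi⟩ := key (S.card - 1) (by omega)
  have : T = S := eq_of_subset_of_card_le hT (by omega)
  subst this
  omega

/-- every nonempty even set contains a circuit -/
theorem exists_circ {Z : Finset E} (hF : Z ⊆ G.F) (hne : Z.Nonempty) (hev : G.Ev Z) :
    ∃ X ⊆ Z, G.Circ X := by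
  classical
  obtain ⟨X, hX, hmin⟩ := exists_min_image
    (Z.powerset.filter fun Y => Y.Nonempty ∧ G.Ev Y) card ⟨Z, by simp [hne, hev]⟩
  simp only [mem_filter, mem_powerset] at hX hmin
  refine ⟨X, hX.1, hX.1.trans hF, hX.2.1, hX.2.2, fun Y hY hYe hYn => ?_⟩
  exact eq_of_subset_of_card_le hY (hmin Y ⟨hY.trans hX.1, hYn, hYe⟩)

theorem Ev.sdiff {G : Gph V E} {X Y : Finset E} (hX : G.Ev X) (hY : G.Ev Y) (h : Y ⊆ X) :
    G.Ev (X \ Y) := by
  intro v
  have := G.card_cut_sdiff h {v}
  have h1 := hX v
  have h2 := hY v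
  rw [← this] at h1
  exact (Nat.even_add.mp h1).mpr h2

theorem submod (X : Finset E) (U W : Finset V) :
    (G.cut X (U ∩ W)).card + (G.cut X (U ∪ W)).card ≤ (G.cut X U).card + (G.cut X W).card := by
  simp_rw [card_cut_eq_sum, ← sum_add_distrib]
  refine sum_le_sum fun e _ => ?_
  by_cases h1 : G.s e ∈ U <;> by_cases h2 : G.t e ∈ U <;> by_cases h3 : G.s e ∈ W <;>
    by_cases h4 : G.t e ∈ W <;> simp [h1, h2, h3, h4]

theorem posimod (X : Finset E) (U W : Finset V) :
    (G.cut X (U \ W)).card + (G.cut X (W \ U)).card ≤ (G.cut X U).card + (G.cut X W).card := by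
  simp_rw [card_cut_eq_sum, ← sum_add_distrib]
  refine sum_le_sum fun e _ => ?_
  by_cases h1 : G.s e ∈ U <;> by_cases h2 : G.t e ∈ U <;> by_cases h3 : G.s e ∈ W <;>
    by_cases h4 : G.t e ∈ W <;> simp [h1, h2, h3, h4]

/-- complement inside `A` -/
theorem cut_compl (hs : ∀ e ∈ G.F, G.s e ∈ G.A) (ht : ∀ e ∈ G.F, G.t e ∈ G.A) {X : Finset E}
    (hX : X ⊆ G.F) (U : Finset V) : G.cut X (G.A \ U) = G.cut X U := by
  ext e
  simp only [cut, mem_filter, mem_sdiff]
  constructor
  · rintro ⟨h1, h2⟩
    have := hs e (hX h1)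
    have := ht e (hX h1)
    tauto
  · rintro ⟨h1, h2⟩
    have := hs e (hX h1)
    have := ht e (hX h1)
    tauto

/-- parity in cubic graphs -/
theorem Cubic.parity {G : Gph V E} (h : G.Cubic) {U : Finset V} (hU : U ⊆ G.A) :
    (G.cut G.F U).card + 2 * (G.ins G.F U).card = 3 * U.card := by
  rw [add_comm, ← handshake G h.ne U, sum_congr rfl (fun v hv => h.deg v (hU hv))]
  simp [mul_comm]

end Gph

end GLR
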